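import Mathlib
import Pool.Agent.H9Pav.Core

set_option autoImplicit false

namespace Pool.Agent.Results.MP_1ae31d_co.PavingReliabilityRoots

open Finset Pool.Agent.H9Pav

variable {α : Type*}

/-- The rank of a finite matroid, as a natural number (the common cardinality of its bases). -/
noncomputable def rank (M : Matroid α) : ℕ := M.eRank.toNat

/-- `f_k`: the number of independent sets of `M` with exactly `k` elements. -/
noncomputable def numIndep (M : Matroid α) (k : ℕ) : ℕ :=
  {I : Set α | M.Indep I ∧ I.ncard = k}.ncard

/-- The reliability polynomial `Rel(M;q) = ∑_{k=0}^{r} f_k q^k (1-q)^{m-k}`, where `r` is the rank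
of `M` and `m` is the number of elements of its ground set. -/
noncomputable def rel (M : Matroid α) : Polynomial ℂ :=
  ∑ k ∈ Finset.range (rank M + 1),
    Polynomial.C (numIndep M k : ℂ) * Polynomial.X ^ k * (1 - Polynomial.X) ^ (M.E.ncard - k)

/-- A matroid of rank `r` is paving if every circuit has at least `r` elements. -/
def IsPaving (M : Matroid α) : Prop := ∀ C : Set α, M.IsCircuit C → rank M ≤ C.ncard

section

variable (M : Matroid α) [M.Finite]

lemma numIndep_eq (E : Finset α) (hE : (E : Set α) = M.E) (k : ℕ) [DecidablePred fun S : Finset α => M.Indep (S : Set α)] :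
    numIndep M k = ((E.powersetCard k).filter (fun S : Finset α => M.Indep (S : Set α))).card := by
  unfold numIndep
  have : {I : Set α | M.Indep I ∧ I.ncard = k} =
      (fun S : Finset α => (S : Set α)) ''
        (((E.powersetCard k).filter (fun S : Finset α => M.Indep (S : Set α)) : Finset (Finset α)) :
          Set (Finset α)) := by
    ext I
    simp only [Set.mem_ofPred_eq, Set.mem_image, coe_filter, mem_powersetCard]
    constructor
    · rintro ⟨h1, h2⟩
      have hfin : I.Finite := h1.finite
      refine ⟨hfin.toFinset, ⟨⟨?_, ?_⟩, ?_⟩, ?_⟩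
      · intro x hx
        have : x ∈ M.E := h1.subset_ground (hfin.mem_toFinset.1 hx)
        rw [← hE] at this
        exact this
      · rw [← Set.ncard_eq_toFinset_card I hfin]; exact h2
      · rw [hfin.coe_toFinset]; exact h1
      · exact hfin.coe_toFinset
    · rintro ⟨S, ⟨⟨h1, h2⟩, h3⟩, rfl⟩
      exact ⟨h3, by rw [Set.ncard_coe_finset]; exact h2⟩
  rw [this, Set.ncard_image_of_injective _ Finset.coe_injective]
  exact Set.ncard_coe_finset _

end

theorem result (M : Matroid α) [M.Finite] (hM : IsPaving M) (z : ℂ) (hz : (rel M).IsRoot z) :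
    ‖z‖ ≤ 1 := by
  classical
  by_contra hcon
  push Not at hcon
  obtain ⟨E, hE⟩ : ∃ E : Finset α, (E : Set α) = M.E :=
    ⟨M.ground_finite.toFinset, M.ground_finite.coe_toFinset⟩
  obtain ⟨B, hB⟩ := M.exists_isBase
  have hBfin : B.Finite := hB.finite
  have hBr : B.ncard = rank M := by
    unfold rank
    rw [← hB.encard_eq_eRank]; rfl
  have hEm : M.E.ncard = E.card := by rw [← hE, Set.ncard_coe_finset]
  set r := rank M with hr
  have hrm : r ≤ E.card := by
    rw [← hEm, ← hBr]
    exact Set.ncard_le_ncard hB.subset_ground M.ground_finite
  have heval : ∑ k ∈ range (r+1), (numIndep M k : ℂ) * z ^ k * (1 - z) ^ (E.card - k) = 0 := by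
    have : (rel M).eval z = 0 := hz
    unfold rel at this
    rw [Polynomial.eval_finsetSum] at this
    rw [← this, ← hr, hEm]
    apply sum_congr rfl
    intro k _
    simp
  have hz1 : (1 - z) ≠ 0 := by
    intro h
    have : z = 1 := by linear_combination -h
    rw [this] at hcon
    simp at hcon
  -- sets of size `< r` are independent
  have hindep : ∀ S : Finset α, S ⊆ E → S.card < r → M.Indep (S : Set α) := by
    intro S hS hSr
    by_contra h
    have hdep : M.Dep (S : Set α) := by
      rw [Matroid.dep_iff]; exact ⟨h, by rw [← hE]; exact_mod_cast hS⟩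
    obtain ⟨C, hCS, hC⟩ := hdep.exists_isCircuit_subset
    have h1 := hM C hC
    have h2 : C.ncard ≤ S.card := by
      rw [← Set.ncard_coe_finset]
      exact Set.ncard_le_ncard hCS S.finite_toSet
    omega
  have hfk : ∀ k < r, numIndep M k = E.card.choose k := by
    intro k hk
    rw [numIndep_eq M E hE k, ← card_powersetCard]
    congr 1
    rw [filter_eq_self]
    intro S hS
    rw [mem_powersetCard] at hS
    exact hindep S hS.1 (by omega)
  set B' := hBfin.toFinset with hB'
  have hB'c : (B' : Set α) = B := hBfin.coe_toFinset
  have hB'E : B' ⊆ E := by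
    rw [← Finset.coe_subset, hB'c, hE]; exact hB.subset_ground
  have hB'r : B'.card = r := by rw [← hBr, ← hB'c, Set.ncard_coe_finset]
  rcases Nat.lt_or_ge r E.card with hlt | hge
  · obtain ⟨n, hn⟩ := Nat.exists_eq_add_of_lt hlt
    -- E.card = r + n + 1
    have hEc : E.card = (n+1) + r := by omega
    rcases Nat.eq_zero_or_pos r with hr0 | hrpos
    · rw [hr0] at heval
      rw [zero_add, sum_range_one] at heval
      have h0 : numIndep M 0 = 1 := by
        rw [numIndep_eq M E hE 0, powersetCard_zero]
        have : ({∅} : Finset (Finset α)).filter (fun S : Finset α => M.Indep (S : Set α)) = {∅} := by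
          rw [filter_eq_self]
          intro S hS
          rw [mem_singleton] at hS
          rw [hS]; simp
        rw [this, card_singleton]
      rw [h0] at heval
      simp only [Nat.cast_one, pow_zero, mul_one, one_mul] at heval
      exact pow_ne_zero _ hz1 heval
    · set H := (E.powersetCard (n+1)).filter (fun F => ¬ M.Indep ((E \ F : Finset α) : Set α))
        with hH
      have hHsub : H ⊆ E.powersetCard (n+1) := filter_subset _ _
      have hcompl : ∀ F : Finset α, F ⊆ E → (F.card = n+1 ↔ (E \ F).card = r) := by
        intro F hF
        rw [card_sdiff_of_subset hF, hEc]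
        have := card_le_card hF
        omega
      have hcirc : ∀ F ∈ H, M.IsCircuit ((E \ F : Finset α) : Set α) := by
        intro F hF
        rw [hH, mem_filter, mem_powersetCard] at hF
        have hdep : M.Dep ((E \ F : Finset α) : Set α) := by
          rw [Matroid.dep_iff]
          refine ⟨hF.2, ?_⟩
          rw [← hE]; exact_mod_cast (sdiff_subset : E \ F ⊆ E)
        obtain ⟨C, hCS, hC⟩ := hdep.exists_isCircuit_subset
        have h1 := hM C hC
        have h2 : C = ((E \ F : Finset α) : Set α) := by
          apply Set.eq_of_subset_of_ncard_le hCS _ (E \ F).finite_toSet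
          rw [Set.ncard_coe_finset, (hcompl F hF.1.1).1 hF.1.2]
          exact h1
        rw [← h2]; exact hC
      have hClos : Clos E (n+1) H := by
        intro T hT hTn a ha b hb haT hbT hab h1 h2 c hc hcT
        have c1 := hcirc _ h1
        have c2 := hcirc _ h2
        rw [hH, mem_filter, mem_powersetCard]
        refine ⟨⟨insert_subset hc hT, by rw [card_insert_of_notMem hcT, hTn]⟩, ?_⟩
        intro hind
        have hne : ((E \ insert a T : Finset α) : Set α) ≠ ((E \ insert b T : Finset α) : Set α) := by
          intro h
          have h' : E \ insert a T = E \ insert b T := by exact_mod_cast h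
          have : b ∈ E \ insert a T := by
            rw [mem_sdiff, mem_insert, not_or]; exact ⟨hb, fun h => hab h.symm, hbT⟩
          rw [h', mem_sdiff] at this
          exact this.2 (mem_insert_self _ _)
        by_cases hca : c = a
        · subst hca; exact c1.not_indep hind
        by_cases hcb : c = b
        · subst hcb; exact c2.not_indep hind
        obtain ⟨C, hC, hCc⟩ := c1.elimination c2 hne c
        apply hCc.not_indep
        apply hind.subset
        intro x hx
        have := hC hx
        simp only [Set.mem_sdiff, Set.mem_union, mem_coe, mem_sdiff, mem_insert, not_or,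
          Set.mem_singleton_iff] at this ⊢
        obtain ⟨h3, h4⟩ := this
        rcases h3 with h3 | h3
        · exact ⟨h3.1, h4, h3.2.2⟩
        · exact ⟨h3.1, h4, h3.2.2⟩
      have hF0 : E \ B' ∈ E.powersetCard (n+1) := by
        rw [mem_powersetCard]
        refine ⟨sdiff_subset, ?_⟩
        rw [card_sdiff_of_subset hB'E, hB'r]; omega
      have hF0H : E \ B' ∉ H := by
        rw [hH, mem_filter, not_and, not_not]
        intro _
        rw [Finset.sdiff_sdiff_eq_self hB'E, hB'c]
        exact hB.indep
      have hcore := core (n := n+1) (r := r) (by omega) hrpos hEc hHsub hClos hF0 hF0H z hcon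
      apply hcore
      -- number of bases
      have hbases : numIndep M r + H.card = E.card.choose r := by
        rw [numIndep_eq M E hE r, ← card_powersetCard,
          ← card_filter_add_card_filter_not (s := E.powersetCard r) (fun S : Finset α => M.Indep (S : Set α))]
        congr 1
        apply card_bij (fun F _ => E \ F)
        · intro F hF
          rw [hH, mem_filter, mem_powersetCard] at hF
          rw [mem_filter, mem_powersetCard]
          exact ⟨⟨sdiff_subset, (hcompl F hF.1.1).1 hF.1.2⟩, hF.2⟩
        · intro F hF G hG hFG
          rw [hH, mem_filter, mem_powersetCard] at hF hG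
          rw [← Finset.sdiff_sdiff_eq_self hF.1.1, hFG, Finset.sdiff_sdiff_eq_self hG.1.1]
        · intro S hS
          rw [mem_filter, mem_powersetCard] at hS
          refine ⟨E \ S, ?_, Finset.sdiff_sdiff_eq_self hS.1.1⟩
          rw [hH, mem_filter, mem_powersetCard, Finset.sdiff_sdiff_eq_self hS.1.1]
          refine ⟨⟨sdiff_subset, ?_⟩, hS.2⟩
          rw [card_sdiff_of_subset hS.1.1, hS.1.2]; omega
      have hnum : (numIndep M r : ℂ) = ((n+1+r).choose r : ℂ) - H.card := by
        have : ((numIndep M r : ℕ) : ℂ) + (H.card : ℂ) = ((n+1+r).choose r : ℂ) := by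
          rw [← hEc]; exact_mod_cast hbases
        linear_combination this
      have hv := hvec n r z
      have hsum : ∑ k ∈ range (r+1), (numIndep M k : ℂ) * z ^ k * (1 - z) ^ (E.card - k) =
          (1-z)^(n+1) * (∑ k ∈ range (r+1), ((n+1+r).choose k : ℂ) * z ^ k * (1-z) ^ (r-k) -
            (H.card : ℂ) * z ^ r) := by
        rw [sum_range_succ, sum_range_succ, hnum, hEc]
        have e1 : ∑ k ∈ range r, (numIndep M k : ℂ) * z ^ k * (1 - z) ^ (n+1+r - k) =
            (1-z)^(n+1) * ∑ k ∈ range r, ((n+1+r).choose k : ℂ) * z ^ k * (1-z) ^ (r-k) := by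
          rw [mul_sum]
          apply sum_congr rfl
          intro k hk
          rw [mem_range] at hk
          rw [hfk k hk, hEc, show n + 1 + r - k = (n+1) + (r - k) by omega, pow_add]
          ring
        rw [e1, show n + 1 + r - r = n + 1 by omega, Nat.sub_self]
        ring
      rw [hsum, hv] at heval
      have h3 := (mul_eq_zero.1 heval).resolve_left (pow_ne_zero _ hz1)
      unfold PP
      rw [sum_range_succ] at h3
      rw [show n + 1 - 1 = n by omega, show n + 1 + r - 1 = n + r by omega]
      have h4 : (n+r).choose n = (n+r).choose r := Nat.choose_symm_add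
      rw [h4] at h3
      push_cast
      linear_combination h3
  · have hm : E.card = r := le_antisymm hge hrm
    have hEB : E = B' := (eq_of_subset_of_card_le hB'E (by rw [hB'r, hm])).symm
    have hfk' : ∀ k ∈ range (r+1), (numIndep M k : ℂ) * z ^ k * (1 - z) ^ (E.card - k) =
        z ^ k * (1-z) ^ (r - k) * (r.choose k : ℂ) := by
      intro k _
      have : numIndep M k = r.choose k := by
        rw [numIndep_eq M E hE k, ← hm, ← card_powersetCard]
        congr 1
        rw [filter_eq_self]
        intro S hS
        rw [mem_powersetCard, hEB] at hS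
        apply hB.indep.subset
        rw [← hB'c]
        exact_mod_cast hS.1
      rw [this, hm]
      ring
    rw [sum_congr rfl hfk', ← add_pow] at heval
    simp at heval

end Pool.Agent.Results.MP_1ae31d_co.PavingReliabilityRoots
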